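import Pool.Agent.H236_QM.Main

set_option autoImplicit false

namespace Pool.Agent.Results.MP_c06d29_gt.PolyhedralQManifolds

open Pool.Agent.H236_QM

/-- Let `K` be a countable locally finite simplicial complex. Every space homeomorphic to an open
subset of `|K| × Q` admits an embedding into the Hilbert cube `Q` whose image is the union of a
star-finite family of basic closed sets; the family is moreover locally finite at each point of
the image. -/
theorem _root_.Pool.Agent.Results.MP_c06d29_gt.PolyhedralQManifolds.result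
    {V : Type} [Countable V] (K : Cx V) (M : Type) [TopologicalSpace M]
    (U : Set (K.poly × (ℕ → Set.Icc (0:ℝ) 1))) (hU : IsOpen U) (hM : Nonempty (M ≃ₜ U)) :
    ∃ f : M → (ℕ → Set.Icc (0:ℝ) 1), Topology.IsEmbedding f ∧
      ∃ 𝒞 : Set (Set (ℕ → Set.Icc (0:ℝ) 1)),
        (∀ B ∈ 𝒞, ∃ a b : ℕ → ℝ, (∀ i, 0 ≤ a i ∧ a i < b i ∧ b i ≤ 1) ∧
          {i : ℕ | a i ≠ 0 ∨ b i ≠ 1}.Finite ∧
          B = {x | ∀ i, a i ≤ (x i : ℝ) ∧ (x i : ℝ) ≤ b i}) ∧
        (∀ B ∈ 𝒞, {D ∈ 𝒞 | (B ∩ D).Nonempty}.Finite) ∧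
        (∀ x ∈ Set.range f, ∃ O : Set (ℕ → Set.Icc (0:ℝ) 1), IsOpen O ∧ x ∈ O ∧
          {D ∈ 𝒞 | (D ∩ O).Nonempty}.Finite) ∧
        Set.range f = ⋃₀ 𝒞 := by
  obtain ⟨h⟩ := hM
  obtain ⟨f, hf, 𝒞, hB, hLF, hr⟩ := open_embeds K M U hU h
  refine ⟨f, hf, 𝒞, hB, hLF.star_finite hB, fun x hx => ?_, hr⟩
  rw [hr] at hx
  exact hLF x hx

end Pool.Agent.Results.MP_c06d29_gt.PolyhedralQManifolds
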